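import Pool.Agent.U347.BT.ExitK

/-! Inscribed squares in Jordan curves whose inside is, near each point of the curve, a John domain
with a constant greater than `1 / √5` (nothing is supposed about the outside), or which near the
point turn little (bounded turning with a constant below `√2`), or have one-sided tangents, or are
locally monotone, or for which the point is inside a sealed arc. -/

set_option autoImplicit false

namespace Pool.Agent.Results.MP_5a3ebe_gt.BoundedTurning

open Classical in
/-- The signed distance of `z` to the closed curve `c` (of period `1`): the distance of `z` to the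
curve if the curve winds an odd number `n` of times around `z` (there is a continuous logarithm `k`
of `c - z` with `k 1 - k 0 = 2 π n i`), and minus the distance otherwise. A point `z` is strictly
inside the curve if `0 < sdist c z`. -/
noncomputable def sdist (c : ℝ → ℂ) (z : ℂ) : ℝ :=
  if ∃ n : ℤ, (∃ k : ℝ → ℂ, Continuous k ∧ (∀ t, Complex.exp (k t) = c t - z) ∧
      k 1 - k 0 = n * (2 * Real.pi * Complex.I)) ∧ Odd n
  then Metric.infDist z (Set.range c) else -Metric.infDist z (Set.range c)

/-- The curve `c` contains the four vertices of a square. -/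
def HasSquare (c : ℝ → ℂ) : Prop :=
  ∃ z w : ℂ, w ≠ 0 ∧ z ∈ Set.range c ∧ z + w ∈ Set.range c ∧
    z + w + Complex.I * w ∈ Set.range c ∧ z + Complex.I * w ∈ Set.range c

/-- Near the point `p = c t` the inside of the curve satisfies the John condition with a constant
`m` greater than `M`: for some `r > 0` each point `z` strictly inside the curve with `|z - p| < r`
is joined with a point at distance at least `r` from `p` by a path `γ` such that the distance of
each point `w` of the path to the curve is at least `m |w - z|`.

If the inside of the curve is a John domain with a constant `m > M` (each point `z` inside is joined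
with a fixed point `z₀` inside by a path whose points `w` are at distance at least `m ℓ` from the
curve, `ℓ` the length, or the diameter, of the part of the path between `z` and `w`) then this holds
at all points of the curve, with `r` the distance of `z₀` to the curve. -/
def JohnAt (c : ℝ → ℂ) (M t : ℝ) : Prop :=
  ∃ m > M, ∃ r > 0, ∀ z, 0 < sdist c z → ‖z - c t‖ < r →
    ∃ γ : ℝ → ℂ, Continuous γ ∧ γ 0 = z ∧ r ≤ ‖γ 1 - c t‖ ∧
      ∀ s ∈ Set.Icc (0:ℝ) 1, m * ‖γ s - z‖ ≤ Metric.infDist (γ s) (Set.range c)

/-- Bounded turning with a constant below `√2` near the point `p` of the set `C`: any two different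
points `P`, `Q` of `C` near `p` are in a connected subset of `C` all of whose points are at distance
less than `√2 |PQ|` from `P` and from `Q`. -/
def SmallTurning (C : Set ℂ) (p : ℂ) : Prop :=
  ∃ r > 0, ∀ P ∈ C, ∀ Q ∈ C, P ≠ Q → dist P p < r → dist Q p < r →
    ∃ E ⊆ C, IsPreconnected E ∧ P ∈ E ∧ Q ∈ E ∧
      ∀ z ∈ E, dist z P < √2 * dist P Q ∧ dist z Q < √2 * dist P Q

/-- Near the parameter `t` the right angle of every isosceles right triangle with its vertices on
the curve is at the vertex between the two others: if `x < s < y` then the points `c x`, `c s`,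
`c y` are not the vertices of an isosceles right triangle with the right angle at `c x` or at
`c y`. -/
def RightAngleBetween (c : ℝ → ℂ) (t : ℝ) : Prop :=
  ∃ ε > 0, ∀ (x s y : ℝ) (κ : ℂ), |x - t| < ε → |y - t| < ε → x < s → s < y →
    (κ = Complex.I ∨ κ = -Complex.I) → c s ≠ c x + κ * (c y - c x) ∧ c s ≠ c y + κ * (c x - c y)

/-- The point `c t` is inside a sealed arc: an arc over `[a, b]`, `a < t < b < a + 1`, such that no
isosceles right triangle `P = c x`, `Q = c y`, `V = c u = P + κ (Q - P)` with its vertices on the
arc, for which the fourth vertex `Q + κ (Q - P)` of the square is strictly inside the curve, has a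
vertex at an end of the arc. Nothing is supposed about the triangles on the arc that do not have a
vertex at an end of the arc, and nothing about the rest of the curve. -/
def InSealedArc (c : ℝ → ℂ) (κ : ℂ) (t : ℝ) : Prop :=
  ∃ a b, a < t ∧ t < b ∧ b < a + 1 ∧
    ∀ x ∈ Set.Icc a b, ∀ y ∈ Set.Icc a b, ∀ u ∈ Set.Icc a b,
      (x = a ∨ y = a ∨ u = a ∨ x = b ∨ y = b ∨ u = b) →
      ¬ (c u = c x + κ * (c y - c x) ∧ 0 < sdist c (c y + κ * (c y - c x)))

/-- The curve has one-sided tangents in different directions at the parameter `t`: the unit vectors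
from `c t` to `c s` converge for `s → t` from the left and from the right, and the two limits are
different (for instance if `c` has a non-zero derivative at `t`). Nothing is supposed about the
tangents at other points. -/
def Tangents (c : ℝ → ℂ) (t : ℝ) : Prop := ∃ u v : ℂ, ‖u‖ = 1 ∧ ‖v‖ = 1 ∧ u ≠ v ∧
  Filter.Tendsto (fun s => (c s - c t) / (‖c s - c t‖ : ℂ)) (nhdsWithin t (Set.Iio t)) (nhds u) ∧
  Filter.Tendsto (fun s => (c s - c t) / (‖c s - c t‖ : ℂ)) (nhdsWithin t (Set.Ioi t)) (nhds v)

/-- Exit condition at the point `p` of the curve `C`: for some `r, ρ > 0`, if `P ≠ Q` and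
`V = P + κ (Q - P)` are in `C`, `|P - p| < ρ`, `|Q - p| < ρ`, and the fourth vertex
`D = Q + κ (Q - P)` of the square is strictly inside the curve, then there is a path from `D` to a
point at distance at least `r` from `p` which does not meet `C` and the segments `PQ` and `PV`. It
follows from `JohnAt` with `M = 1 / √5`. -/
def ExitAt (c : ℝ → ℂ) (κ : ℂ) (t : ℝ) : Prop :=
  ∃ r > 0, ∃ ρ > 0, ∀ P ∈ Set.range c, ∀ Q ∈ Set.range c, P ≠ Q → ‖P - c t‖ < ρ →
    ‖Q - c t‖ < ρ → P + κ * (Q - P) ∈ Set.range c → 0 < sdist c (Q + κ * (Q - P)) →
    ∃ γ : ℝ → ℂ, Continuous γ ∧ γ 0 = Q + κ * (Q - P) ∧ r ≤ ‖γ 1 - c t‖ ∧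
      ∀ s ∈ Set.Icc (0:ℝ) 1, γ s ∉ Set.range c ∧ γ s ∉ segment ℝ P Q ∧
        γ s ∉ segment ℝ P (P + κ * (Q - P))

/-- The curve is locally monotone at the parameter `t` (Stromquist): near `t` the scalar product of
the curve with a fixed vector is strictly increasing. -/
def LocallyMonotone (c : ℝ → ℂ) (t : ℝ) : Prop := ∃ ρ > 0, ∃ w : ℂ, ∀ x y : ℝ,
  |x - t| < ρ → |y - t| < ρ → x < y → 0 < (w * (c y - c x)).re

/-- Let `c` (continuous, of period `1`, injective on `[0, 1)`) parametrise a Jordan curve `C`, and
let `κ = ± i`. Suppose that, with `M = 1 / √5`, each parameter `t` satisfies one of (1) - (6), or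
that, with `M = 1 / √2`, each parameter satisfies one of (1) - (5), (7):
(1) near `c t` the inside of the curve is a John domain with a constant greater than `M`;
(2) the curve has bounded turning near `c t` with a constant below `√2`;
(3) near `t` every isosceles right triangle on the curve has its right angle at the vertex between
the two others;
(4) `c t` is inside a sealed arc: no isosceles right triangle on the arc (of orientation `κ`, with
the fourth vertex of the square inside the curve) has a vertex at an end of the arc;
(5) the curve has one-sided tangents in different directions at `t`;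
(6) near `c t` the fourth vertex of each such square, if it is inside, can be joined inside the
curve with a distant point without crossing the two sides of the square it does not belong to;
(7) the curve is locally monotone at `t`.
Then the curve contains the four vertices of a square. Different points may satisfy different
conditions. -/
theorem result (c : ℝ → ℂ) (hc : Continuous c) (hper : ∀ t, c (t + 1) = c t)
    (hinj : Set.InjOn c (Set.Ico 0 1)) (κ : ℂ) (hκ : κ = Complex.I ∨ κ = -Complex.I)
    (H : (∀ t, JohnAt c (1 / √5) t ∨ SmallTurning (Set.range c) (c t) ∨ RightAngleBetween c t ∨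
        InSealedArc c κ t ∨ Tangents c t ∨ ExitAt c κ t) ∨
      (∀ t, JohnAt c (1 / √2) t ∨ SmallTurning (Set.range c) (c t) ∨ RightAngleBetween c t ∨
        InSealedArc c κ t ∨ Tangents c t ∨ LocallyMonotone c t)) :
    HasSquare c := by
  have L : H763R2.An.Loop c := ⟨hc, hper⟩
  have J : H763R2.An.Inj c := H765R3.Peg.inj_of L hinj
  have tan : ∀ {t}, Tangents c t → N335.Hg.Tan c t := by
    rintro t ⟨u, v, hu, hv, huv, h1, h2⟩
    refine ⟨u, v, hu, hv, huv, ?_, ?_⟩
    · convert h1 using 2 with s
      push_cast
      rw [div_eq_inv_mul]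
    · convert h2 using 2 with s
      push_cast
      rw [div_eq_inv_mul]
  have ext : ∀ {t : ℝ}, JohnAt c (1 / √5) t → ExitAt c κ t := fun ⟨m, hm, h⟩ =>
    U347.BT.exit_of_carr' (fun z hz h0 => by
      have h1 : 0 < H763R2.An.mgc c z := h0
      rw [((H763R2.An.mgc_sg L).zero L).2 hz] at h1
      exact lt_irrefl _ h1) hκ hm h
  have mono : ∀ {t : ℝ}, JohnAt c (1 / √2) t → JohnAt c (1 / √5) t := fun ⟨m, hm, h⟩ =>
    ⟨m, lt_trans (one_div_lt_one_div_of_lt (by positivity)
      (Real.sqrt_lt_sqrt (by norm_num) (by norm_num))) hm, h⟩
  rcases H with H | H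
  · refine U347.BT.square_one' False L J hκ fun t => ?_
    rcases H t with h | h | h | h | h | h
    · exact Or.inr (Or.inr (Or.inr (Or.inr (Or.inr ⟨ext h, fun h' => h'.elim⟩))))
    · exact Or.inl (U347.BT.mid_of_threePoint (U347.BT.threePoint_of_turningAt L J h))
    · exact Or.inl h
    · exact Or.inr (Or.inr (Or.inr (Or.inr (Or.inl h))))
    · exact Or.inr (Or.inr (Or.inr (Or.inl (tan h))))
    · exact Or.inr (Or.inr (Or.inr (Or.inr (Or.inr ⟨h, fun h' => h'.elim⟩))))
  · refine U347.BT.square_one' True L J hκ fun t => ?_
    rcases H t with h | h | h | h | h | h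
    · exact Or.inr (Or.inr (Or.inr (Or.inr (Or.inr ⟨ext (mono h), fun _ => h⟩))))
    · exact Or.inl (U347.BT.mid_of_threePoint (U347.BT.threePoint_of_turningAt L J h))
    · exact Or.inl h
    · exact Or.inr (Or.inr (Or.inr (Or.inr (Or.inl h))))
    · exact Or.inr (Or.inr (Or.inr (Or.inl (tan h))))
    · exact Or.inr (Or.inl ⟨trivial, h⟩)

end Pool.Agent.Results.MP_5a3ebe_gt.BoundedTurning
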