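import Pool.Agent.U438.Calm.Thm

/-!
# Inscribed squares, inscribed quadrilaterals and separating sets of chords of a Jordan curve

No regularity and no finite length is assumed. Let `A`, `B` be two different points of a Jordan curve `C`. An arc of `C` between `A`
and `B` is calm if it contains no points `P`, `Q`, in the order `A, P, Q, B`, such that `|A P|`, `|P Q|` and `|Q B|` are at least
`|A B|`. New geometric fact: if both other vertices of a square with the side `A B` lie inside `C`, then one of the two arcs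
between `A` and `B` is not calm (crossing argument). The starting library (`SingleScale`) shows that, if `C` contains no
square, every closed set of chords that separates the short from the long chords contains a chord with this property.
-/

set_option autoImplicit false

namespace Pool.Agent.Results.MP_5a3ebe_gt.HalvingChords

/-- The arc of `c` over `[a, b]`, with the ends `A = c a` and `B = c b`, is calm: it contains no points `P`, `Q`, in the
order `A, P, Q, B`, such that `|A P|`, `|P Q|` and `|Q B|` are at least `|A B|`. -/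
def Calm (c : ℝ → ℂ) (a b : ℝ) : Prop :=
  ∀ s t, a ≤ s → s ≤ t → t ≤ b →
    ¬ (‖c b - c a‖ ≤ ‖c s - c a‖ ∧ ‖c b - c a‖ ≤ ‖c t - c s‖ ∧ ‖c b - c a‖ ≤ ‖c b - c t‖)

/-- The point `O` is inside: `c` winds `n ≠ 0` times around `O`. -/
def Inside (c : ℝ → ℂ) (O : ℂ) : Prop :=
  ∃ n : ℤ, n ≠ 0 ∧ ∃ k : ℝ → ℂ, Continuous k ∧ (∀ t, Complex.exp (k t) = c t - O) ∧
    k 1 - k 0 = n * (2 * Real.pi * Complex.I)

/-- `S` meets every path of pairs `x ≤ y ≤ x + 1` from some `(x, x)` to some `(x, x + 1)`. -/
def Separates (S : Set (ℝ × ℝ)) : Prop :=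
  ∀ x y : ℝ → ℝ, ContinuousOn x (Set.Icc 0 1) → ContinuousOn y (Set.Icc 0 1) →
    (∀ s ∈ Set.Icc (0 : ℝ) 1, x s ≤ y s ∧ y s ≤ x s + 1) → y 0 = x 0 → y 1 = x 1 + 1 →
    ∃ s ∈ Set.Icc (0 : ℝ) 1, (x s, y s) ∈ S

/-- Let `C` be a Jordan curve parametrised by `c : ℝ → ℂ` of period `1`. Each of the following
conditions implies that `C` contains the four vertices of a square.

1. (Quadrilaterals.) There are a point `O` inside `C` and an `r > 0` such that all chords of `C` through `O` have length at
   least `r`, and every quadrilateral with its vertices on `C`, in their cyclic order on `C`, has a side shorter than `r`.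
2. (Separating sets.) There is a closed set `S` of chords, with both arcs of each of them calm, that separates the short chords
   from the long ones: it consists of pairs `(x, y)` with `x < y < x + 1`, is invariant under `(x, y) ↦ (x + 1, y + 1)`, and
   meets all paths of pairs `x ≤ y ≤ x + 1` from some `(x, x)` to some `(x, x + 1)`. -/
theorem result (c : ℝ → ℂ) (hc : Continuous c) (hper : ∀ t, c (t + 1) = c t)
    (hinj : Set.InjOn c (Set.Ico 0 1))
    (h : (∃ (O : ℂ) (r : ℝ), Inside c O ∧ 0 < r ∧
        (∀ x y, O ∈ segment ℝ (c x) (c y) → r ≤ ‖c y - c x‖) ∧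
        ∀ x p q y, x ≤ p → p ≤ q → q ≤ y → y ≤ x + 1 →
          ‖c p - c x‖ < r ∨ ‖c q - c p‖ < r ∨ ‖c y - c q‖ < r ∨ ‖c x - c y‖ < r) ∨
      (∃ S : Set (ℝ × ℝ), IsClosed S ∧ (∀ x y, (x + 1, y + 1) ∈ S ↔ (x, y) ∈ S) ∧ Separates S ∧
        ∀ x y, (x, y) ∈ S → x < y ∧ y < x + 1 ∧ Calm c x y ∧ Calm c y (x + 1))) :
    ∃ z w : ℂ, w ≠ 0 ∧ z ∈ Set.range c ∧ z + w ∈ Set.range c ∧
      z + w + Complex.I * w ∈ Set.range c ∧ z + Complex.I * w ∈ Set.range c := by
  by_contra hcon
  have L : H763R2.An.Loop c := ⟨hc, hper⟩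
  have J := H765R3.Peg.inj_of L hinj
  have hC : ∀ a b, Calm c a b → U438.Calm.Calm c a b := by
    intro a b h s t h1 h2 h3
    have := h s t h1 h2 h3
    by_contra hcon
    push Not at hcon
    exact this hcon
  rcases h with ⟨O, r, ⟨n, hn, k, hk, he, hkn⟩, hr, hO, hq⟩ | ⟨S, hS, hSp, hsep, h⟩
  · refine U438.Calm.quad L J hcon hn hk he hkn hr hO fun x p q y h1 h2 h3 h4 hh => ?_
    rcases hq x p q y h1 h2 h3 h4 with h | h | h | h
    · linarith [hh.1]
    · linarith [hh.2.1]
    · linarith [hh.2.2.1]
    · rw [norm_sub_rev] at h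
      linarith [hh.2.2.2]
  · exact U438.Calm.sep L J hcon hS hSp hsep fun x y hxy => by
      obtain ⟨h1, h2, h3, h4⟩ := h x y hxy
      exact ⟨h1, h2, hC _ _ h3, hC _ _ h4⟩

end Pool.Agent.Results.MP_5a3ebe_gt.HalvingChords
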