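import Pool.Agent.U333.Peg.Main

/-! Inscribed squares in Jordan curves that at each of their points are locally monotone or folded
(cusps are allowed). -/

set_option autoImplicit false

namespace Pool.Agent.Results.MP_5a3ebe_gt.LocallyMonotoneOrFolded

/-- The curve `c` contains the four vertices of a square. -/
def HasSquare (c : ℝ → ℂ) : Prop :=
  ∃ z w : ℂ, w ≠ 0 ∧ z ∈ Set.range c ∧ z + w ∈ Set.range c ∧
    z + w + Complex.I * w ∈ Set.range c ∧ z + Complex.I * w ∈ Set.range c

/-- The curve is locally monotone at the parameter `t` (Stromquist): near `t` the scalar product of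
the curve with a fixed vector is strictly increasing. -/
def LocallyMonotone (c : ℝ → ℂ) (t : ℝ) : Prop := ∃ ρ > 0, ∃ w : ℂ, ∀ x y : ℝ,
  |x - t| < ρ → |y - t| < ρ → x < y → 0 < (w * (c y - c x)).re

/-- The curve is folded at the parameter `t`: in the coordinates given by `w`, the arc shortly
before `t` and the arc shortly after `t` are two graphs of functions with a Lipschitz constant
`κ < 1` over the same half line, which ends at `c t`. (The point `c t` can be a cusp, or the apex
of a corner; the two graphs only have to be disjoint.) -/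
def Folded (c : ℝ → ℂ) (t : ℝ) : Prop := ∃ w : ℂ, w ≠ 0 ∧ ∃ κ, 0 < κ ∧ κ < 1 ∧ ∃ ρ > 0,
  (∀ x y, t - ρ < x → x < y → y ≤ t →
    |(w * (c y - c x)).im| ≤ κ * (w * (c y - c x)).re) ∧
  (∀ x y, t ≤ x → x < y → y < t + ρ →
    |(w * (c x - c y)).im| ≤ κ * (w * (c x - c y)).re)

/-- The curve has strict one-sided tangents at the parameter `t`: the directions of the short
chords (in the sense of the parametrisation) with both endpoints before or at `t` converge to `u`,
and those of the short chords with both endpoints at or after `t` converge to `v`. The directions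
`u` and `v` are arbitrary; if `v = -u` then `c t` is a cusp. -/
def StrictTangents (c : ℝ → ℂ) (t : ℝ) : Prop := ∃ u v : ℂ, ‖u‖ = 1 ∧ ‖v‖ = 1 ∧ ∀ ε > 0,
  ∃ ρ > 0, (∀ x y, t - ρ < x → x < y → y ≤ t →
      ‖(c y - c x) - ‖c y - c x‖ * u‖ ≤ ε * ‖c y - c x‖) ∧
    (∀ x y, t ≤ x → x < y → y < t + ρ →
      ‖(c y - c x) - ‖c y - c x‖ * v‖ ≤ ε * ‖c y - c x‖)

/-- On the two sides of the parameter `t` the curve is continuously differentiable (up to `t`) with
non-zero one-sided derivatives at `t`; these may point in any directions. -/
def PiecewiseC1 (c : ℝ → ℂ) (t : ℝ) : Prop := ∃ ρ > 0,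
  ContDiffOn ℝ 1 c (Set.Icc (t - ρ) t) ∧ derivWithin c (Set.Icc (t - ρ) t) t ≠ 0 ∧
  ContDiffOn ℝ 1 c (Set.Icc t (t + ρ)) ∧ derivWithin c (Set.Icc t (t + ρ)) t ≠ 0

/-- Let `c` (continuous, of period `1`, injective on `[0, 1)`) parametrise a Jordan curve. Suppose
that at each parameter `t`
(1) the curve is locally monotone, or
(2) the curve is folded: on the two sides of `t` it consists of graphs of functions with a Lipschitz
constant less than `1` over the same half line, or
(3) the curve has strict one-sided tangents (in arbitrary directions), or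
(4) the curve is continuously differentiable on both sides with non-zero one-sided derivatives
(of arbitrary directions).
Then the curve contains the four vertices of a square. Different points may satisfy different
conditions. In particular all piecewise continuously differentiable regular Jordan curves have
inscribed squares, with any cusps. If all points satisfy (1) this is the theorem of Stromquist; two
graphs of functions with Lipschitz constants less than `1` and common endpoints satisfy (1) between
the endpoints and (2) at the endpoints (Tao). -/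
theorem result (c : ℝ → ℂ) (hc : Continuous c) (hper : ∀ t, c (t + 1) = c t)
    (hinj : Set.InjOn c (Set.Ico 0 1))
    (H : ∀ t, LocallyMonotone c t ∨ Folded c t ∨ StrictTangents c t ∨ PiecewiseC1 c t) :
    HasSquare c := by
  have L : H763R2.An.Loop c := ⟨hc, hper⟩
  have J : H763R2.An.Inj c := U333.Peg.inj_of L hinj
  refine U333.Peg.main L J fun t => ?_
  rcases H t with h | h | ⟨u, v, hu, hv, h⟩ | ⟨ρ, hρ, h1, h2, h3, h4⟩
  · exact Or.inl h
  · exact Or.inr h
  · refine U333.Peg.strict J hu hv ?_ ?_
    · intro ε hε
      obtain ⟨ρ, hρ, h1, -⟩ := h ε hε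
      exact ⟨ρ, hρ, fun x hx y hy hxt hyt hxy => h1 x y (by linarith [(abs_lt.1 hxt).1]) hxy hy⟩
    · intro ε hε
      obtain ⟨ρ, hρ, -, h1⟩ := h ε hε
      exact ⟨ρ, hρ, fun x hx y hy hxt hyt hxy => h1 x y hx hxy (by linarith [(abs_lt.1 hyt).2])⟩
  · exact U333.Peg.c1_strict J hρ h1 h2 h3 h4

end Pool.Agent.Results.MP_5a3ebe_gt.LocallyMonotoneOrFolded
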