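import Pool.Agent.U347.SS.Fin

/-! Inscribed squares in Jordan curves from a condition at a single scale, without any local
regularity: bounded turning, John condition, no separating chords. -/

set_option autoImplicit false

namespace Pool.Agent.Results.MP_5a3ebe_gt.OneScale

open Classical in
/-- The signed distance of `z` to the closed curve `c` (of period `1`): the distance of `z` to the
curve if the curve winds an odd number `n` of times around `z` (there is a continuous logarithm `k`
of `c - z` with `k 1 - k 0 = 2 π n i`), and minus the distance otherwise. A point `z` is inside the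
curve if `0 < sdist c z`. -/
noncomputable def sdist (c : ℝ → ℂ) (z : ℂ) : ℝ :=
  if ∃ n : ℤ, (∃ k : ℝ → ℂ, Continuous k ∧ (∀ t, Complex.exp (k t) = c t - z) ∧
      k 1 - k 0 = n * (2 * Real.pi * Complex.I)) ∧ Odd n
  then Metric.infDist z (Set.range c) else -Metric.infDist z (Set.range c)

/-- The curve `c` contains the four vertices of a square. -/
def HasSquare (c : ℝ → ℂ) : Prop :=
  ∃ z w : ℂ, w ≠ 0 ∧ z ∈ Set.range c ∧ z + w ∈ Set.range c ∧
    z + w + Complex.I * w ∈ Set.range c ∧ z + Complex.I * w ∈ Set.range c

/-- Bounded turning with the constant `√2` at one scale: for some `r > 0` such that `O` is at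
distance at least `√2 r` from the curve, and for all `A = c x`, `B = c y` with `|AB| = r`, one of
the two arcs of the curve between `A` and `B` is in the open disc of radius `√2 r` about `A`. -/
def OneScaleTurning (c : ℝ → ℂ) (O : ℂ) : Prop :=
  ∃ r > 0, √2 * r ≤ Metric.infDist O (Set.range c) ∧
    ∀ x y : ℝ, x < y → y < x + 1 → ‖c y - c x‖ = r →
      (∀ t ∈ Set.Icc x y, ‖c t - c x‖ < √2 * r) ∨ (∀ t ∈ Set.Icc y (x + 1), ‖c t - c x‖ < √2 * r)

/-- John condition with a constant greater than `1 / √5` at one scale: for some `m > 1 / √5` and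
some `r > 0`, less than twice the distance of `O` to the curve, each point `z` inside the curve is
joined with `O` by a path which does not meet the curve and such that the distance to the curve of
each point `w` of the path with `|w - z| ≥ r` is at least `m |w - z|`. -/
def OneScaleJohn (c : ℝ → ℂ) (O : ℂ) : Prop :=
  ∃ r > 0, ∃ m > 1 / √5, r < 2 * Metric.infDist O (Set.range c) ∧
    ∀ z : ℂ, 0 < sdist c z → ∃ γ : ℝ → ℂ, Continuous γ ∧ γ 0 = z ∧ γ 1 = O ∧
      ∀ s ∈ Set.Icc (0:ℝ) 1, γ s ∉ Set.range c ∧
        (r ≤ ‖γ s - z‖ → m * ‖γ s - z‖ ≤ Metric.infDist (γ s) (Set.range c))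

/-- For the chord from `A = c x` to `B = c y` let `D = A + i(B - A)` and `E = B + i(B - A)` be the
other two vertices of the square on its left. The chord has the direction `α` if the pair of the
signed distances of `D` and `E` to the curve is a positive multiple of `(cos α, sin α)`. -/
def Dir (c : ℝ → ℂ) (α x y : ℝ) : Prop :=
  ∃ t : ℝ, 0 < t ∧ sdist c (c x + Complex.I * (c y - c x)) = t * Real.cos α ∧
    sdist c (c y + Complex.I * (c y - c x)) = t * Real.sin α

/-- The closed curve formed by the arc of `c` over `[x, y]` and the segment from `c y` to `c x`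
winds around `z` (for `z` not on this closed curve): along the arc, the argument of `c - z` (the
imaginary part of a continuous logarithm `k`) does not change by the principal value of the angle
from `c x - z` to `c y - z`. -/
def Encloses (c : ℝ → ℂ) (z : ℂ) (x y : ℝ) : Prop :=
  ∃ k : ℝ → ℂ, Continuous k ∧ (∀ t, Complex.exp (k t) = c t - z) ∧
    (k y - k x).im ≠ Complex.arg ((c y - z) / (c x - z))

/-- The chord from `A = c x` to `B = c y` separates `E` from `O` inside the curve: exactly one of
the points `E`, `O` is enclosed by the arc over `[x, y]` and the segment; moreover (these properties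
follow) each path from `E` to `O` that does not meet the curve meets the segment `AB`, and the
convex hull of each of the two arcs of the curve between `A` and `B` contains `E` or `O`. -/
def Separates (c : ℝ → ℂ) (O E : ℂ) (x y : ℝ) : Prop :=
  (Encloses c E x y ∧ ¬ Encloses c O x y ∨ ¬ Encloses c E x y ∧ Encloses c O x y) ∧
  (∀ γ : ℝ → ℂ, Continuous γ → γ 0 = E → γ 1 = O →
    (∀ s ∈ Set.Icc (0:ℝ) 1, γ s ∉ Set.range c) →
    ∃ s ∈ Set.Icc (0:ℝ) 1, γ s ∈ segment ℝ (c x) (c y)) ∧
  (E ∈ convexHull ℝ (c '' Set.Icc x y) ∨ O ∈ convexHull ℝ (c '' Set.Icc x y)) ∧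
  (E ∈ convexHull ℝ (c '' Set.Icc y (x + 1)) ∨ O ∈ convexHull ℝ (c '' Set.Icc y (x + 1)))

/-- No chord at the scale `ρ` (a positive continuous function of the two ends, less than the length
for the chords through `O`) and of the direction `α` (for some `α` with `sin α > 0`, so that `E` is
inside the curve) separates `E = B + i(B - A)` from `O` inside the curve. -/
def NoSeparatingChord (c : ℝ → ℂ) (O : ℂ) : Prop :=
  ∃ (ρ : ℂ → ℂ → ℝ) (α : ℝ), Continuous (fun p : ℂ × ℂ => ρ p.1 p.2) ∧ (∀ z, 0 < ρ z z) ∧
    (∀ x y, O ∈ segment ℝ (c x) (c y) → ρ (c x) (c y) < ‖c y - c x‖) ∧ 0 < Real.sin α ∧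
    ∀ x y : ℝ, x < y → y < x + 1 → ‖c y - c x‖ = ρ (c x) (c y) → Dir c α x y →
      ¬ Separates c O (c y + Complex.I * (c y - c x)) x y

/-- Let `c` (continuous, of period `1`, injective on `[0, 1)`) parametrise a Jordan curve `C`, and
let `O` be a point inside. If
(1) `C` has bounded turning with the constant `√2` at one scale, or
(2) the inside satisfies the John condition with a constant greater than `1 / √5` at one scale, or
(3) generally, for some scale (a function of the ends of the chords) and some direction no chord
    `AB` at this scale separates the vertex `E` of the square `A B E D` from `O` inside `C`,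
then the curve contains the four vertices of a square. Nothing is supposed about the curve at other
scales: in (1) and (2) the curve may be changed arbitrarily at small scales as long as the
inequalities at the scale `r` remain. -/
theorem result (c : ℝ → ℂ) (hc : Continuous c) (hper : ∀ t, c (t + 1) = c t)
    (hinj : Set.InjOn c (Set.Ico 0 1)) (O : ℂ) (hO : 0 < sdist c O)
    (H : OneScaleTurning c O ∨ OneScaleJohn c O ∨ NoSeparatingChord c O) : HasSquare c := by
  have L : H763R2.An.Loop c := ⟨hc, hper⟩
  have J : H763R2.An.Inj c := H765R3.Peg.inj_of L hinj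
  rcases H with ⟨r, hr, hrO, H⟩ | ⟨r, hr, m, hm, hrO, H⟩ | ⟨ρ, α, cρ, hpos, hlt, hα, H⟩
  · exact U347.SS.square_turn L J hO hr hrO H
  · exact U347.SS.square_john L J hO hr hrO hm H
  · exact U347.SS.square_nosep L J hO cρ hpos hlt hα fun x y h1 h2 h3 h4 h5 => by
      obtain ⟨t, ht, e1, e2⟩ := h4
      have d1 : c x + Complex.I * (c y - c x) = H763R2.An.DD c x y := by
        unfold H763R2.An.DD H763R2.Sq.Dv; ring
      have d2 : c y + Complex.I * (c y - c x) = H763R2.An.CC c x y := by
        unfold H763R2.An.CC H763R2.Sq.Cv; ring
      refine H x y h1 h2 h3 ⟨t, ht, ?_, ?_⟩ ?_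
      · rw [d1]; exact e1
      · rw [d2]; exact e2
      · rw [d2]; exact h5

end Pool.Agent.Results.MP_5a3ebe_gt.OneScale
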